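import Pool.Agent.H691.Geo.Defs

/-!
# Max-min area triangulations: basic lemmas on displaced points
-/

set_option autoImplicit false

namespace Pool.Agent.H691.Geo

open Pool.Agent.W982.TA

/-- doubled area of displaced points -/
theorem dt_sp (N : ℤ) (p q r : Pt) (α β γ : ℤ) :
    dt (sp N p α) (sp N q β) (sp N r γ) =
      N ^ 2 * dt p q r + N * (α * (q.2 - r.2) + β * (r.2 - p.2) + γ * (p.2 - q.2)) := by
  simp only [dt, sp]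
  ring

theorem mem_box {X Y : ℤ} {p : Pt} : p ∈ box X Y ↔ 0 ≤ p.1 ∧ p.1 ≤ X ∧ 0 ≤ p.2 ∧ p.2 ≤ Y := by
  simp only [box, Finset.mem_product, Finset.mem_Icc]
  tauto

theorem mem_lbox {X Y : ℤ} {p : Pt} : p ∈ lbox X Y ↔ 0 ≤ p.1 ∧ p.1 < X ∧ 0 < p.2 ∧ p.2 < Y := by
  simp only [lbox, Finset.mem_product, Finset.mem_Ioo, Finset.mem_Ico]
  tauto

theorem lbox_box {X Y : ℤ} {p : Pt} (h : p ∈ lbox X Y) : p ∈ box X Y := by
  rw [mem_lbox] at h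
  rw [mem_box]
  omega

/-- membership in the point set -/
theorem mem_SS {X Y N : ℤ} {W : Finset Pt} {P : Pt} : P ∈ SS X Y N W ↔
    (∃ p ∈ box X Y, P = sp N p 0) ∨ ∃ p ∈ W, P = sp N p 1 := by
  unfold SS
  simp only [Finset.mem_union, Finset.mem_image]
  constructor
  · rintro (⟨p, h1, h2⟩ | ⟨p, h1, h2⟩)
    · exact Or.inl ⟨p, h1, h2.symm⟩
    · exact Or.inr ⟨p, h1, h2.symm⟩
  · rintro (⟨p, h1, h2⟩ | ⟨p, h1, h2⟩)
    · exact Or.inl ⟨p, h1, h2.symm⟩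
    · exact Or.inr ⟨p, h1, h2.symm⟩

/-- membership in the point set, uniform version -/
theorem mem_SS' {X Y N : ℤ} {W : Finset Pt} (hW : W ⊆ lbox X Y) {P : Pt}
    (h : P ∈ SS X Y N W) : ∃ p ∈ box X Y, ∃ δ : ℤ, (δ = 0 ∨ (δ = 1 ∧ p ∈ W)) ∧ P = sp N p δ := by
  rcases mem_SS.1 h with ⟨p, h1, h2⟩ | ⟨p, h1, h2⟩
  · exact ⟨p, h1, 0, Or.inl rfl, h2⟩
  · exact ⟨p, lbox_box (hW h1), 1, Or.inr ⟨rfl, h1⟩, h2⟩

/-- the displaced points are different -/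
theorem sp_inj {N : ℤ} (hN : 2 ≤ N) {p q : Pt} {α β : ℤ} (hα : 0 ≤ α) (hα' : α ≤ 1)
    (hβ : 0 ≤ β) (hβ' : β ≤ 1) (h : sp N p α = sp N q β) : p = q ∧ α = β := by
  simp only [sp, Prod.mk.injEq] at h
  obtain ⟨h1, h2⟩ := h
  have hN0 : N ≠ 0 := by omega
  have e2 : p.2 = q.2 := mul_left_cancel₀ hN0 h2
  have e1 : N * (p.1 - q.1) = β - α := by linarith
  have e3 : p.1 - q.1 = 0 := by
    by_contra hne
    rcases lt_or_gt_of_ne hne with h | h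
    · have : N * (p.1 - q.1) ≤ N * (-1) := mul_le_mul_of_nonneg_left (by omega) (by omega)
      omega
    · have : N * 1 ≤ N * (p.1 - q.1) := mul_le_mul_of_nonneg_left (by omega) (by omega)
      omega
  rw [e3] at e1
  exact ⟨Prod.ext (by omega) e2, by omega⟩

/-- the perturbation is small -/
theorem pert_abs {Y : ℤ} (p q r : Pt) (α β γ : ℤ)
    (hα : 0 ≤ α) (hα' : α ≤ 1) (hβ : 0 ≤ β) (hβ' : β ≤ 1) (hγ : 0 ≤ γ) (hγ' : γ ≤ 1)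
    (hp : 0 ≤ p.2) (hp' : p.2 ≤ Y) (hq : 0 ≤ q.2) (hq' : q.2 ≤ Y) (hr : 0 ≤ r.2) (hr' : r.2 ≤ Y) :
    -Y ≤ α * (q.2 - r.2) + β * (r.2 - p.2) + γ * (p.2 - q.2) ∧
      α * (q.2 - r.2) + β * (r.2 - p.2) + γ * (p.2 - q.2) ≤ Y := by
  have h1 : α = 0 ∨ α = 1 := by omega
  have h2 : β = 0 ∨ β = 1 := by omega
  have h3 : γ = 0 ∨ γ = 1 := by omega
  rcases h1 with rfl | rfl <;> rcases h2 with rfl | rfl <;> rcases h3 with rfl | rfl <;>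
    constructor <;> omega

/-- a positive coarse doubled area gives a large positive doubled area -/
theorem dt_sp_pos {X Y N : ℤ} (hN : 4 * Y + 8 ≤ N) (hY : 0 < Y) {p q r : Pt} (hp : p ∈ box X Y)
    (hq : q ∈ box X Y) (hr : r ∈ box X Y) {α β γ : ℤ} (hα : 0 ≤ α) (hα' : α ≤ 1) (hβ : 0 ≤ β)
    (hβ' : β ≤ 1) (hγ : 0 ≤ γ) (hγ' : γ ≤ 1) (h : 0 < dt p q r) :
    2 * N < dt (sp N p α) (sp N q β) (sp N r γ) := by
  rw [dt_sp]
  rw [mem_box] at hp hq hr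
  have h1 := (pert_abs p q r α β γ hα hα' hβ hβ' hγ hγ' hp.2.2.1 hp.2.2.2 hq.2.2.1 hq.2.2.2
    hr.2.2.1 hr.2.2.2).1
  have h2 : N ^ 2 * 1 ≤ N ^ 2 * dt p q r := mul_le_mul_of_nonneg_left (by omega) (sq_nonneg N)
  have h3 : N * (-Y) ≤ N * (α * (q.2 - r.2) + β * (r.2 - p.2) + γ * (p.2 - q.2)) :=
    mul_le_mul_of_nonneg_left h1 (by omega)
  nlinarith

/-- a negative coarse doubled area gives a large negative doubled area -/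
theorem dt_sp_neg {X Y N : ℤ} (hN : 4 * Y + 8 ≤ N) (hY : 0 < Y) {p q r : Pt} (hp : p ∈ box X Y)
    (hq : q ∈ box X Y) (hr : r ∈ box X Y) {α β γ : ℤ} (hα : 0 ≤ α) (hα' : α ≤ 1) (hβ : 0 ≤ β)
    (hβ' : β ≤ 1) (hγ : 0 ≤ γ) (hγ' : γ ≤ 1) (h : dt p q r < 0) :
    dt (sp N p α) (sp N q β) (sp N r γ) < -(2 * N) := by
  have e : ∀ a b c : Pt, dt b a c = -dt a b c := by intro a b c; simp only [dt]; ring
  have := dt_sp_pos hN hY hq hp hr hβ hβ' hα hα' hγ hγ' (by rw [e]; omega)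
  rw [e] at this
  omega

/-- a proper crossing of coarse segments gives a proper crossing of displaced ones -/
theorem pcross_sp {X Y N : ℤ} (hN : 4 * Y + 8 ≤ N) (hY : 0 < Y) {p q p' q' : Pt}
    (hp : p ∈ box X Y) (hq : q ∈ box X Y) (hp' : p' ∈ box X Y) (hq' : q' ∈ box X Y)
    {α β α' β' : ℤ} (hα : 0 ≤ α ∧ α ≤ 1) (hβ : 0 ≤ β ∧ β ≤ 1) (hα' : 0 ≤ α' ∧ α' ≤ 1)
    (hβ' : 0 ≤ β' ∧ β' ≤ 1) (h : PCross p q p' q') :
    PCross (sp N p α) (sp N q β) (sp N p' α') (sp N q' β') := by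
  have key : ∀ {a b c d : Pt} {x y z w : ℤ}, a ∈ box X Y → b ∈ box X Y → c ∈ box X Y →
      d ∈ box X Y → (0 ≤ x ∧ x ≤ 1) → (0 ≤ y ∧ y ≤ 1) → (0 ≤ z ∧ z ≤ 1) → (0 ≤ w ∧ w ≤ 1) →
      dt a b c * dt a b d < 0 →
      dt (sp N a x) (sp N b y) (sp N c z) * dt (sp N a x) (sp N b y) (sp N d w) < 0 := by
    intro a b c d x y z w ha hb hc hd hx hy hz hw hlt
    rcases mul_neg_iff.1 hlt with ⟨h1, h2⟩ | ⟨h1, h2⟩
    · have e1 := dt_sp_pos hN hY ha hb hc hx.1 hx.2 hy.1 hy.2 hz.1 hz.2 h1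
      have e2 := dt_sp_neg hN hY ha hb hd hx.1 hx.2 hy.1 hy.2 hw.1 hw.2 h2
      exact mul_neg_of_pos_of_neg (by omega) (by omega)
    · have e1 := dt_sp_neg hN hY ha hb hc hx.1 hx.2 hy.1 hy.2 hz.1 hz.2 h1
      have e2 := dt_sp_pos hN hY ha hb hd hx.1 hx.2 hy.1 hy.2 hw.1 hw.2 h2
      exact mul_neg_of_neg_of_pos (by omega) (by omega)
  exact ⟨key hp hq hp' hq' hα hβ hα' hβ' h.1, key hp' hq' hp hq hα' hβ' hα hβ h.2⟩

end Pool.Agent.H691.Geo
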