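import Pool.Agent.H691.Geo.Stm

/-!
# Max-min area triangulations, task P1b (helper484, for helper691)
-/

set_option autoImplicit false

namespace Pool.Agent.H691.Geo.P1b

open Pool.Agent.W982.TA Pool.Agent.H691.Geo

theorem mem_oseg {p q : Pt} {z : ℝ × ℝ} (h : z ∈ oseg p q) :
    ∃ t : ℝ, 0 < t ∧ t < 1 ∧ z.1 = (1 - t) * p.1 + t * q.1 ∧ z.2 = (1 - t) * p.2 + t * q.2 := by
  obtain ⟨a, b, ha, hb, hab, rfl⟩ := h
  have h1 : a = 1 - b := by linarith
  subst h1
  exact ⟨b, hb, by linarith, by simp [emb], by simp [emb]⟩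

theorem mem_oseg' {p q r : Pt} {t : ℝ} (h0 : 0 < t) (h1 : t < 1)
    (e1 : (r.1 : ℝ) = (1 - t) * p.1 + t * q.1) (e2 : (r.2 : ℝ) = (1 - t) * p.2 + t * q.2) :
    emb r ∈ oseg p q := by
  refine ⟨1 - t, t, by linarith, h0, by ring, ?_⟩
  apply Prod.ext
  · simp only [emb, Prod.fst_add, Prod.smul_fst, smul_eq_mul]
    exact e1.symm
  · simp only [emb, Prod.snd_add, Prod.smul_snd, smul_eq_mul]
    exact e2.symm

/-- a nonzero vector is a positive multiple of a primitive one -/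
theorem exists_prim {a b : ℤ} (h : b ≠ 0) :
    ∃ g : Pt, ∃ k : ℤ, 1 ≤ k ∧ Int.gcd g.1 g.2 = 1 ∧ a = k * g.1 ∧ b = k * g.2 := by
  have hpos : 0 < Int.gcd a b := by
    rw [Nat.pos_iff_ne_zero]
    intro h0
    exact h (Int.gcd_eq_zero_iff.1 h0).2
  refine ⟨(a / (Int.gcd a b : ℤ), b / (Int.gcd a b : ℤ)), (Int.gcd a b : ℤ), by omega, ?_, ?_, ?_⟩
  · exact Int.gcd_div_gcd_div_gcd hpos
  · exact (Int.mul_ediv_cancel' (Int.gcd_dvd_left a b)).symm
  · exact (Int.mul_ediv_cancel' (Int.gcd_dvd_right a b)).symm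

theorem mul_between {x g k j X : ℤ} (h0 : 0 ≤ x) (h1 : x ≤ X) (h2 : 0 ≤ x + k * g)
    (h3 : x + k * g ≤ X) (hj : 0 ≤ j) (hjk : j ≤ k) : 0 ≤ x + j * g ∧ x + j * g ≤ X := by
  rcases le_total 0 g with h | h
  · have e1 : 0 ≤ j * g := mul_nonneg hj h
    have e2 : j * g ≤ k * g := mul_le_mul_of_nonneg_right hjk h
    constructor <;> linarith
  · have e1 : j * g ≤ 0 := mul_nonpos_of_nonneg_of_nonpos hj h
    have e2 : k * g ≤ j * g := mul_le_mul_of_nonpos_right hjk h
    constructor <;> linarith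

theorem box_between {X Y : ℤ} {p g : Pt} {k j : ℤ} (hp : p ∈ box X Y)
    (hq : (p.1 + k * g.1, p.2 + k * g.2) ∈ box X Y) (hj : 0 ≤ j) (hjk : j ≤ k) :
    (p.1 + j * g.1, p.2 + j * g.2) ∈ box X Y := by
  rw [mem_box] at hp hq ⊢
  obtain ⟨a1, a2, a3, a4⟩ := hp
  obtain ⟨b1, b2, b3, b4⟩ := hq
  obtain ⟨c1, c2⟩ := mul_between a1 a2 b1 b2 hj hjk
  obtain ⟨d1, d2⟩ := mul_between a3 a4 b3 b4 hj hjk
  exact ⟨c1, c2, d1, d2⟩

/-- the short horizontal segment contains no further point -/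
theorem short_seg {N : ℤ} {w r : Pt} : emb r ∉ oseg (sp N w 0) (sp N w 1) := by
  intro h
  obtain ⟨t, h0, h1, e1, -⟩ := mem_oseg h
  simp only [emb, sp] at e1
  push_cast at e1
  have e2 : (r.1 : ℝ) = N * w.1 + t := by rw [e1]; ring
  have e3 : ((N * w.1 : ℤ) : ℝ) < r.1 := by push_cast; linarith
  have e4 : (r.1 : ℝ) < ((N * w.1 + 1 : ℤ) : ℝ) := by push_cast; linarith
  have e5 : N * w.1 < r.1 := by exact_mod_cast e3
  have e6 : r.1 < N * w.1 + 1 := by exact_mod_cast e4
  omega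

/-- Case B of the proof -/
theorem caseB (h1a : TaskP1a) {X Y N : ℤ} {W : Finset Pt} {T : Set (Sym2 Pt)} (hP : Par X Y N W)
    (hG : Good X Y N W T) {w p q : Pt} (hw : w ∈ W) {a b : ℤ} (hp : p ∈ box X Y)
    (hq : q ∈ box X Y) (ha : a = 0 ∨ (a = 1 ∧ p ∈ W)) (hb : b = 0 ∨ (b = 1 ∧ q ∈ W))
    (hpw : p.2 < w.2) (hwq : w.2 < q.2) (hT : s(sp N p a, sp N q b) ∈ T)
    (hc : dt (sp N p a) (sp N q b) (sp N w 0) * dt (sp N p a) (sp N q b) (sp N w 1) < 0) :
    ∃ g : Pt, ∃ j h : ℤ, Int.gcd g.1 g.2 = 1 ∧ 2 ≤ g.2 ∧ 0 < j ∧ j < h ∧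
      p = (w.1 - j * g.1, w.2 - j * g.2) ∧ q = (w.1 + (h - j) * g.1, w.2 + (h - j) * g.2) := by
  have hN := hP.N0
  have hY := hP.Y0
  have bp := mem_box.1 hp
  have bq := mem_box.1 hq
  have bw := mem_lbox.1 (hP.W0 hw)
  rw [dt_sp, dt_sp] at hc
  set D := dt p q w with hD
  set e := a * (q.2 - w.2) + b * (w.2 - p.2) with he
  have ha01 : a = 0 ∨ a = 1 := ha.imp id (fun h => h.1)
  have hb01 : b = 0 ∨ b = 1 := hb.imp id (fun h => h.1)
  have he0 : 0 ≤ e ∧ e ≤ q.2 - p.2 := by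
    rw [he]
    rcases ha01 with h | h <;> rcases hb01 with h' | h' <;> rw [h, h'] <;> constructor <;> omega
  have hN0 : 0 < N := by omega
  have e1 : N ^ 2 * D + N * (a * (q.2 - w.2) + b * (w.2 - p.2) + 0 * (p.2 - q.2)) =
      N * (N * D + e) := by rw [he]; ring
  have e2 : N ^ 2 * D + N * (a * (q.2 - w.2) + b * (w.2 - p.2) + 1 * (p.2 - q.2)) =
      N * (N * D + e - (q.2 - p.2)) := by rw [he]; ring
  rw [e1, e2] at hc
  have hc2 : (N * D + e) * (N * D + e - (q.2 - p.2)) < 0 := by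
    have : N * (N * D + e) * (N * (N * D + e - (q.2 - p.2))) =
        N ^ 2 * ((N * D + e) * (N * D + e - (q.2 - p.2))) := by ring
    rw [this] at hc
    by_contra hcon
    push Not at hcon
    have := mul_nonneg (sq_nonneg N) hcon
    linarith
  have hc3 : 0 < N * D + e ∧ N * D + e < q.2 - p.2 := by
    rcases mul_neg_iff.1 hc2 with ⟨x1, x2⟩ | ⟨x1, x2⟩
    · exact ⟨x1, by linarith⟩
    · exfalso; linarith
  have hD0 : D = 0 := by
    by_contra hne
    rcases lt_or_gt_of_ne hne with h | h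
    · have : N * D ≤ N * (-1) := mul_le_mul_of_nonneg_left (by omega) hN0.le
      omega
    · have : N * 1 ≤ N * D := mul_le_mul_of_nonneg_left (by omega) hN0.le
      omega
  rw [hD0, mul_zero, zero_add] at hc3
  obtain ⟨g, h, hh1, hg, eg1, eg2⟩ := exists_prim (a := q.1 - p.1) (b := q.2 - p.2) (by omega)
  have hg2 : 0 < g.2 := by
    by_contra hcon
    push Not at hcon
    have := mul_nonpos_of_nonneg_of_nonpos (by omega : (0 : ℤ) ≤ h) hcon
    omega
  -- w - p is a multiple of g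
  have hdt : h * (g.1 * (w.2 - p.2) - g.2 * (w.1 - p.1)) = 0 := by
    have : (q.1 - p.1) * (w.2 - p.2) - (q.2 - p.2) * (w.1 - p.1) = 0 := by
      rw [hD] at hD0
      exact hD0
    rw [eg1, eg2] at this
    linarith
  have hdt2 : g.1 * (w.2 - p.2) = g.2 * (w.1 - p.1) := by
    rcases mul_eq_zero.1 hdt with h0 | h0
    · omega
    · linarith
  have hcop : IsCoprime g.2 g.1 := (Int.isCoprime_iff_gcd_eq_one.2 hg).symm
  have hdvd : g.2 ∣ w.2 - p.2 := hcop.dvd_of_dvd_mul_left ⟨w.1 - p.1, hdt2⟩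
  obtain ⟨j, hj⟩ := hdvd
  have hj1 : w.1 - p.1 = j * g.1 := by
    have : g.2 * (w.1 - p.1) = g.2 * (j * g.1) := by rw [← hdt2, hj]; ring
    exact mul_left_cancel₀ hg2.ne' this
  have hj2 : w.2 - p.2 = j * g.2 := by rw [hj]; ring
  have hj0 : 0 < j := by
    by_contra hcon
    push Not at hcon
    have := mul_nonpos_of_nonpos_of_nonneg hcon hg2.le
    omega
  have hjh : j < h := by
    by_contra hcon
    push Not at hcon
    have := mul_le_mul_of_nonneg_right hcon hg2.le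
    omega
  have hh2 : 2 ≤ h := by omega
  have hqe : q = (p.1 + h * g.1, p.2 + h * g.2) := Prod.ext (by simp; linarith) (by simp; linarith)
  have hge : 2 ≤ g.2 := by
    have key : 2 ≤ |g.2| := by
      rcases ha with ha | ⟨ha, hpW⟩
      · rcases hb with hb | ⟨hb, hqW⟩
        · exfalso
          rw [he, ha, hb] at hc3
          simp at hc3
        · rw [ha, hb] at hT
          exact h1a X Y N W T hP hG p q g h hh2 hqe hg hg2.ne' hp hqW hT
      · rcases hb with hb | ⟨hb, hqW⟩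
        · rw [ha, hb] at hT
          have h3 := h1a X Y N W T hP hG q p (-g.1, -g.2) h hh2
            (Prod.ext (by simp; linarith) (by simp; linarith))
            (by simpa using hg) (by simpa using hg2.ne') hq hpW
            (by rw [Sym2.eq_swap]; exact hT)
          simpa using h3
        · exfalso
          rw [he, ha, hb] at hc3
          omega
    rwa [abs_of_pos hg2] at key
  refine ⟨g, j, h, hg, hge, hj0, hjh, ?_, ?_⟩
  · exact Prod.ext (by simp; linarith) (by simp; linarith)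
  · refine Prod.ext ?_ ?_
    · simp only; rw [sub_mul]; linarith
    · simp only; rw [sub_mul]; linarith

theorem finishB {X Y N : ℤ} {T : Set (Sym2 Pt)} {w p q g : Pt} {j h a b : ℤ}
    (hp : p ∈ box X Y) (hq : q ∈ box X Y) (ha : 0 ≤ a ∧ a ≤ 1) (hb : 0 ≤ b ∧ b ≤ 1)
    (hg : Int.gcd g.1 g.2 = 1) (hg2 : 2 ≤ g.2) (hj0 : 0 < j) (hjh : j < h)
    (hpe : p = (w.1 - j * g.1, w.2 - j * g.2))
    (hqe : q = (w.1 + (h - j) * g.1, w.2 + (h - j) * g.2))
    (hT : s(sp N p a, sp N q b) ∈ T) (σ : ℤ) (hσ : σ = 1 ∨ σ = -1) :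
    ∃ v : Pt, Int.gcd v.1 v.2 = 1 ∧ 2 ≤ σ * v.2 ∧ w + v ∈ box X Y ∧ Near X Y N T w v := by
  have hq' : (p.1 + h * g.1, p.2 + h * g.2) ∈ box X Y := by
    have : q = (p.1 + h * g.1, p.2 + h * g.2) := by
      rw [hqe, hpe]
      exact Prod.ext (by simp; ring) (by simp; ring)
    rwa [this] at hq
  rcases hσ with rfl | rfl
  · refine ⟨g, hg, by linarith, ?_, -j, h - j, a, b, by omega, by omega, ha, hb, ?_, ?_, ?_⟩
    · have := box_between (j := j + 1) hp hq' (by omega) (by omega)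
      have e : w + g = (p.1 + (j + 1) * g.1, p.2 + (j + 1) * g.2) := by
        rw [hpe]
        exact Prod.ext (by simp; ring) (by simp; ring)
      rwa [e]
    · have e : (w.1 + -j * g.1, w.2 + -j * g.2) = p := by
        rw [hpe]
        exact Prod.ext (by simp; ring) (by simp; ring)
      rwa [e]
    · rwa [← hqe]
    · have e : (w.1 + -j * g.1, w.2 + -j * g.2) = p := by
        rw [hpe]
        exact Prod.ext (by simp; ring) (by simp; ring)
      rwa [e, ← hqe]
  · have e1 : (w.1 + -(h - j) * (-g.1), w.2 + -(h - j) * (-g.2)) = q := by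
      rw [hqe]
      exact Prod.ext (by simp; ring) (by simp; ring)
    have e2 : (w.1 + j * (-g.1), w.2 + j * (-g.2)) = p := by
      rw [hpe]
      exact Prod.ext (by simp; ring) (by simp; ring)
    refine ⟨(-g.1, -g.2), by simpa using hg, by simp; linarith, ?_, -(h - j), j, b, a, by omega,
      by omega, hb, ha, ?_, ?_, ?_⟩
    · have := box_between (j := j - 1) hp hq' (by omega) (by omega)
      have e : w + (-g.1, -g.2) = (p.1 + (j - 1) * g.1, p.2 + (j - 1) * g.2) := by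
        rw [hpe]
        exact Prod.ext (by simp; ring) (by simp; ring)
      rwa [e]
    · simp only
      rw [e1]; exact hq
    · simp only
      rw [e2]; exact hp
    · simp only
      rw [e1, e2, Sym2.eq_swap]; exact hT

/-- Case A of the proof -/
theorem caseA (h1a : TaskP1a) {X Y N : ℤ} {W : Finset Pt} {T : Set (Sym2 Pt)} (hP : Par X Y N W)
    (hG : Good X Y N W T) {w r : Pt} (hw : w ∈ W) {d : ℤ} (hr : r ∈ box X Y)
    (hd : d = 0 ∨ (d = 1 ∧ r ∈ W)) (hT : s(sp N w 0, sp N r d) ∈ T) (σ : ℤ)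
    (hσ : σ = 1 ∨ σ = -1) (h2 : 2 ≤ σ * (r.2 - w.2)) :
    ∃ v : Pt, Int.gcd v.1 v.2 = 1 ∧ 2 ≤ σ * v.2 ∧ w + v ∈ box X Y ∧ Near X Y N T w v := by
  have hwb : w ∈ box X Y := lbox_box (hP.W0 hw)
  have hne : r.2 - w.2 ≠ 0 := by
    intro h0
    rw [h0, mul_zero] at h2
    omega
  obtain ⟨g, k, hk1, hg, eg1, eg2⟩ := exists_prim (a := r.1 - w.1) (b := r.2 - w.2) hne
  have hre : r = (w.1 + k * g.1, w.2 + k * g.2) := Prod.ext (by simp; linarith) (by simp; linarith)
  have hr' : (w.1 + k * g.1, w.2 + k * g.2) ∈ box X Y := hre ▸ hr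
  have hd01 : 0 ≤ d ∧ d ≤ 1 := by rcases hd with h | h <;> omega
  have hwg : w + g ∈ box X Y := by
    have := box_between (j := 1) hwb hr' (by omega) hk1
    have e : w + g = (w.1 + 1 * g.1, w.2 + 1 * g.2) := Prod.ext (by simp) (by simp)
    rwa [e]
  have hN := hP.N0
  have hY := hP.Y0
  have hN0 : 0 < N := by omega
  have near : 2 ≤ σ * g.2 → ∃ v : Pt, Int.gcd v.1 v.2 = 1 ∧ 2 ≤ σ * v.2 ∧ w + v ∈ box X Y ∧
      Near X Y N T w v := by
    intro h3
    refine ⟨g, hg, h3, hwg, 0, k, 0, d, le_rfl, hk1, ⟨le_rfl, by norm_num⟩, hd01, ?_, hr', ?_⟩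
    · have e : (w.1 + 0 * g.1, w.2 + 0 * g.2) = w := Prod.ext (by simp) (by simp)
      rwa [e]
    · have e : (w.1 + 0 * g.1, w.2 + 0 * g.2) = w := Prod.ext (by simp) (by simp)
      rw [e, ← hre]
      exact hT
  apply near
  rw [eg2] at h2
  rcases eq_or_lt_of_le hk1 with hk | hk
  · rw [← hk, one_mul] at h2
    exact h2
  · have hk2 : 2 ≤ k := by omega
    rcases hd with hd | ⟨hd, hrW⟩
    · -- a further point on the segment
      exfalso
      have hseg := (hG.tri.seg _ _ hT).2.2.2 (sp N (w + g) 0) (mem_SS.2 (Or.inl ⟨_, hwg, rfl⟩))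
      apply hseg
      have hkR : (2 : ℝ) ≤ (k : ℝ) := by exact_mod_cast hk2
      have hk0 : (0 : ℝ) < (k : ℝ) := by linarith
      refine mem_oseg' (t := 1 / (k : ℝ)) (by positivity) ?_ ?_ ?_
      · rw [div_lt_one hk0]; linarith
      · simp only [sp, hd, hre, Prod.fst_add]
        push_cast
        field_simp
        ring
      · simp only [sp, hre, Prod.snd_add]
        push_cast
        field_simp
        ring
    · have hg2 : g.2 ≠ 0 := by
        intro h0
        rw [h0, mul_zero, mul_zero] at h2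
        omega
      rw [hd] at hT
      have h3 := h1a X Y N W T hP hG w r g k hk2 hre hg hg2 hwb hrW hT
      rcases hσ with rfl | rfl
      · have h4 : 0 < g.2 := by
          by_contra hcon
          push Not at hcon
          have := mul_nonpos_of_nonneg_of_nonpos (by omega : (0 : ℤ) ≤ k) hcon
          linarith
        rw [abs_of_pos h4] at h3
        linarith
      · have h4 : g.2 < 0 := by
          by_contra hcon
          push Not at hcon
          have := mul_nonneg (by omega : (0 : ℤ) ≤ k) hcon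
          linarith
        rw [abs_of_neg h4] at h3
        linarith

theorem p1b (h1a : TaskP1a) (h4 : TaskG4) (h9 : TaskG9) : TaskP1b := by
  intro X Y N W T hP hG w hw σ hσ
  have hN := hP.N0
  have hY := hP.Y0
  have hX := hP.X0
  have hN0 : 0 < N := by omega
  have hwi := mem_lbox.1 (hP.W0 hw)
  have hwb : w ∈ box X Y := lbox_box (hP.W0 hw)
  have hu : sp N w 0 ∈ SS X Y N W := mem_SS.2 (Or.inl ⟨w, hwb, rfl⟩)
  have hv : sp N w 1 ∈ SS X Y N W := mem_SS.2 (Or.inr ⟨w, hw, rfl⟩)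
  have huv : sp N w 0 ≠ sp N w 1 := by
    intro h
    have := (sp_inj (by omega : 2 ≤ N) (le_refl 0) (by norm_num) (by norm_num) (le_refl 1) h).2
    omega
  have hseg : IsSeg (SS X Y N W) (sp N w 0) (sp N w 1) :=
    ⟨hu, hv, huv, fun r _ => short_seg⟩
  by_cases hin : s(sp N w 0, sp N w 1) ∈ T
  · -- case A
    have area : ∀ c : Pt, dt (sp N w 0) (sp N w 1) c = c.2 - N * w.2 := by
      intro c
      simp only [dt, sp]
      ring
    have area' : ∀ c : Pt, dt (sp N w 1) (sp N w 0) c = -(c.2 - N * w.2) := by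
      intro c
      simp only [dt, sp]
      ring
    rcases hσ with rfl | rfl
    · obtain ⟨c, hc, htri, -⟩ := h9 _ T hG.tri _ _ hin
        ⟨sp N (0, Y) 0, mem_SS.2 (Or.inl ⟨(0, Y), mem_box.2 ⟨le_rfl, hX.le, hY.le, le_rfl⟩, rfl⟩), by
          rw [area]
          simp only [sp]
          have : N * w.2 < N * Y := mul_lt_mul_of_pos_left hwi.2.2.2 hN0
          linarith⟩
      have har := hG.area _ _ _ htri
      have huc : s(sp N w 0, c) ∈ T := htri.2.2.1
      have hcS := (hG.tri.seg _ _ huc).2.1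
      obtain ⟨r, hr, d, hd, rfl⟩ := mem_SS' hP.W0 hcS
      rw [abs_of_pos hc, area] at har
      simp only [sp] at har
      refine caseA h1a hP hG hw hr hd huc 1 (Or.inl rfl) ?_
      rw [one_mul]
      by_contra hcon
      push Not at hcon
      have : N * (r.2 - w.2) ≤ N * 1 := mul_le_mul_of_nonneg_left (by omega) hN0.le
      linarith
    · have hin' : s(sp N w 1, sp N w 0) ∈ T := by rw [Sym2.eq_swap]; exact hin
      obtain ⟨c, hc, htri, -⟩ := h9 _ T hG.tri _ _ hin'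
        ⟨sp N (0, 0) 0, mem_SS.2 (Or.inl ⟨(0, 0), mem_box.2 ⟨le_rfl, hX.le, le_rfl, hY.le⟩, rfl⟩), by
          rw [area']
          simp only [sp]
          have : 0 < N * w.2 := mul_pos hN0 hwi.2.2.1
          linarith⟩
      have har := hG.area _ _ _ htri
      have huc : s(sp N w 0, c) ∈ T := htri.2.1
      have hcS := (hG.tri.seg _ _ huc).2.1
      obtain ⟨r, hr, d, hd, rfl⟩ := mem_SS' hP.W0 hcS
      rw [abs_of_pos hc, area'] at har
      simp only [sp] at har
      refine caseA h1a hP hG hw hr hd huc (-1) (Or.inr rfl) ?_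
      by_contra hcon
      push Not at hcon
      have : N * (w.2 - r.2) ≤ N * 1 := mul_le_mul_of_nonneg_left (by omega) hN0.le
      linarith
  · -- case B
    have hex : ∃ A B : Pt, s(A, B) ∈ T ∧ s(sp N w 0, sp N w 1) ≠ s(A, B) ∧
        ¬ Disjoint (oseg (sp N w 0) (sp N w 1)) (oseg A B) := by
      by_contra hcon
      push Not at hcon
      exact hin (hG.tri.maximal _ _ hseg (fun p' q' h1 h2 => hcon p' q' h1 h2))
    obtain ⟨A, B, hAB, hne, hdis⟩ := hex
    obtain ⟨hA, hB, hABne, hABS⟩ := hG.tri.seg A B hAB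
    have hcross := h4 _ _ _ _ huv hABne hne (hABS _ hu) (hABS _ hv) short_seg short_seg hdis
    obtain ⟨c1, c2⟩ := hcross
    obtain ⟨p, hp, a, ha, rfl⟩ := mem_SS' hP.W0 hA
    obtain ⟨q, hq, b, hb, rfl⟩ := mem_SS' hP.W0 hB
    have ha01 : 0 ≤ a ∧ a ≤ 1 := by rcases ha with h | h <;> omega
    have hb01 : 0 ≤ b ∧ b ≤ 1 := by rcases hb with h | h <;> omega
    have e1 : dt (sp N w 0) (sp N w 1) (sp N p a) = N * (p.2 - w.2) := by
      simp only [dt, sp]; ring
    have e2 : dt (sp N w 0) (sp N w 1) (sp N q b) = N * (q.2 - w.2) := by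
      simp only [dt, sp]; ring
    rw [e1, e2] at c1
    have c1' : (p.2 - w.2) * (q.2 - w.2) < 0 := by
      by_contra hcon
      push Not at hcon
      have := mul_nonneg (sq_nonneg N) hcon
      linarith
    rcases mul_neg_iff.1 c1' with ⟨x1, x2⟩ | ⟨x1, x2⟩
    · have hAB' : s(sp N q b, sp N p a) ∈ T := by rw [Sym2.eq_swap]; exact hAB
      have esw : ∀ A B C : Pt, dt B A C = -dt A B C := by intro A B C; simp only [dt]; ring
      have c3 : dt (sp N q b) (sp N p a) (sp N w 0) * dt (sp N q b) (sp N p a) (sp N w 1) < 0 := by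
        rw [esw (sp N p a) (sp N q b), esw (sp N p a) (sp N q b)]
        linarith
      obtain ⟨g, j, h, y1, y2, y3, y4, y5, y6⟩ := caseB h1a hP hG hw hq hp hb ha (by linarith)
        (by linarith) hAB' c3
      exact finishB hq hp hb01 ha01 y1 y2 y3 y4 y5 y6 hAB' σ hσ
    · obtain ⟨g, j, h, y1, y2, y3, y4, y5, y6⟩ := caseB h1a hP hG hw hp hq ha hb (by linarith)
        (by linarith) hAB c2
      exact finishB hp hq ha01 hb01 y1 y2 y3 y4 y5 y6 hAB σ hσ

end Pool.Agent.H691.Geo.P1b
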