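import Pool.Agent.H691.Geo.Stm

/-!
# P2a: the lifted family consists of segments
-/

set_option autoImplicit false

namespace Pool.Agent.H691.Geo.P2a

open Pool.Agent.W982.TA Pool.Agent.H691.Geo

theorem mem_oseg {p q : Pt} {z : ℝ × ℝ} (h : z ∈ oseg p q) :
    ∃ t : ℝ, 0 < t ∧ t < 1 ∧ z.1 = (1 - t) * p.1 + t * q.1 ∧ z.2 = (1 - t) * p.2 + t * q.2 := by
  obtain ⟨a, b, ha, hb, hab, rfl⟩ := h
  have h1 : a = 1 - b := by linarith
  subst h1
  exact ⟨b, hb, by linarith, by simp [emb], by simp [emb]⟩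

theorem mem_oseg' {p q r : Pt} {t : ℝ} (h0 : 0 < t) (h1 : t < 1)
    (e1 : (r.1 : ℝ) = (1 - t) * p.1 + t * q.1) (e2 : (r.2 : ℝ) = (1 - t) * p.2 + t * q.2) :
    emb r ∈ oseg p q := by
  refine ⟨1 - t, t, by linarith, h0, by ring, ?_⟩
  apply Prod.ext
  · simp only [emb, Prod.fst_add, Prod.smul_fst, smul_eq_mul]
    exact e1.symm
  · simp only [emb, Prod.snd_add, Prod.smul_snd, smul_eq_mul]
    exact e2.symm

theorem isSeg_symm {S : Finset Pt} {p q : Pt} (h : IsSeg S p q) : IsSeg S q p := by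
  obtain ⟨h1, h2, h3, h4⟩ := h
  refine ⟨h2, h1, h3.symm, fun r hr => ?_⟩
  have := h4 r hr
  rwa [show oseg q p = oseg p q from openSegment_symm ℝ _ _]

/-- the segments of a triangulation of all lattice points of the box are primitive -/
theorem prim_of_isSeg {X Y : ℤ} {p q : Pt} (h : IsSeg (box X Y) p q) :
    Int.gcd (q.1 - p.1) (q.2 - p.2) = 1 := by
  obtain ⟨hp, hq, hne, hno⟩ := h
  set g := Int.gcd (q.1 - p.1) (q.2 - p.2) with hg
  by_contra hg1
  have hg0 : g ≠ 0 := by
    intro h0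
    rw [hg, Int.gcd_eq_zero_iff] at h0
    exact hne (Prod.ext (by omega) (by omega))
  have hg2 : 2 ≤ g := by omega
  obtain ⟨a, ha⟩ : (g : ℤ) ∣ q.1 - p.1 := Int.gcd_dvd_left ..
  obtain ⟨b, hb⟩ : (g : ℤ) ∣ q.2 - p.2 := Int.gcd_dvd_right ..
  rw [mem_box] at hp hq
  have hg2' : (2 : ℤ) ≤ g := by exact_mod_cast hg2
  have key : ∀ {Z u v c : ℤ}, 0 ≤ u → u ≤ Z → 0 ≤ v → v ≤ Z → v - u = g * c →
      0 ≤ u + c ∧ u + c ≤ Z := by
    intro Z u v c hu hu' hv hv' hc
    rcases le_total 0 c with h | h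
    · have : 1 * c ≤ g * c := mul_le_mul_of_nonneg_right (by omega) h
      omega
    · have : g * c ≤ 1 * c := mul_le_mul_of_nonpos_right (by omega) h
      omega
  have k1 := key hp.1 hp.2.1 hq.1 hq.2.1 ha
  have k2 := key hp.2.2.1 hp.2.2.2 hq.2.2.1 hq.2.2.2 hb
  have hgR : (2 : ℝ) ≤ g := by exact_mod_cast hg2
  have hgpos : (0 : ℝ) < g := by linarith
  have haR : (q.1 : ℝ) - p.1 = g * a := by exact_mod_cast ha
  have hbR : (q.2 : ℝ) - p.2 = g * b := by exact_mod_cast hb
  refine hno (p.1 + a, p.2 + b) (mem_box.2 ⟨k1.1, k1.2, k2.1, k2.2⟩)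
    (mem_oseg' (t := 1 / (g : ℝ)) (by positivity) ?_ ?_ ?_)
  · rw [div_lt_one hgpos]
    linarith
  · have : (q.1 : ℝ) = p.1 + g * a := by linarith
    rw [this]
    push_cast
    field_simp
    ring
  · have : (q.2 : ℝ) = p.2 + g * b := by linarith
    rw [this]
    push_cast
    field_simp
    ring

/-- a lattice point on the line through `p` and `q` with primitive `q - p` -/
theorem on_line {p q r : Pt} (hg : Int.gcd (q.1 - p.1) (q.2 - p.2) = 1) (h : dt p q r = 0) :
    ∃ j : ℤ, r.1 - p.1 = j * (q.1 - p.1) ∧ r.2 - p.2 = j * (q.2 - p.2) := by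
  have hbez : (q.1 - p.1) * Int.gcdA (q.1 - p.1) (q.2 - p.2) +
      (q.2 - p.2) * Int.gcdB (q.1 - p.1) (q.2 - p.2) = 1 := by
    rw [← Int.gcd_eq_gcd_ab, hg]
    rfl
  set x := Int.gcdA (q.1 - p.1) (q.2 - p.2)
  set y := Int.gcdB (q.1 - p.1) (q.2 - p.2)
  simp only [dt] at h
  refine ⟨(r.1 - p.1) * x + (r.2 - p.2) * y, ?_, ?_⟩
  · linear_combination (-(r.1 - p.1)) * hbez - y * h
  · linear_combination (-(r.2 - p.2)) * hbez + x * h

/-- displaced points on a displaced segment: coarse points on the coarse line -/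
theorem coarse {X Y N : ℤ} (hN : 4 * Y + 8 ≤ N) (hY : 0 < Y) {p q r : Pt} (hp : p ∈ box X Y)
    (hq : q ∈ box X Y) (hr : r ∈ box X Y) {α β γ : ℤ} (hα : 0 ≤ α) (hα' : α ≤ 1) (hβ : 0 ≤ β)
    (hβ' : β ≤ 1) (hγ : 0 ≤ γ) (hγ' : γ ≤ 1)
    (h : emb (sp N r γ) ∈ oseg (sp N p α) (sp N q β)) : dt p q r = 0 := by
  have h0 : dt (sp N p α) (sp N q β) (sp N r γ) = 0 := by
    obtain ⟨t, -, -, e1, e2⟩ := mem_oseg h
    simp only [emb] at e1 e2
    have : ((dt (sp N p α) (sp N q β) (sp N r γ) : ℤ) : ℝ) = 0 := by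
      simp only [dt]
      push_cast
      rw [e1, e2]
      ring
    exact_mod_cast this
  rcases lt_trichotomy (dt p q r) 0 with h1 | h1 | h1
  · have := dt_sp_neg hN hY hp hq hr hα hα' hβ hβ' hγ hγ' h1
    omega
  · exact h1
  · have := dt_sp_pos hN hY hp hq hr hα hα' hβ hβ' hγ hγ' h1
    omega

/-- displaced primitive segments that are not horizontal -/
theorem slant {X Y N : ℤ} {W : Finset Pt} (hP : Par X Y N W) {p q : Pt} (hp : p ∈ box X Y)
    (hq : q ∈ box X Y) (hg : Int.gcd (q.1 - p.1) (q.2 - p.2) = 1) (hb : q.2 ≠ p.2)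
    {α β : ℤ} (hα : 0 ≤ α) (hα' : α ≤ 1) (hβ : 0 ≤ β) (hβ' : β ≤ 1) {R : Pt}
    (hR : R ∈ SS X Y N W) : emb R ∉ oseg (sp N p α) (sp N q β) := by
  intro h
  obtain ⟨r, hr, γ, hγ, rfl⟩ := mem_SS' hP.W0 hR
  have hγ0 : 0 ≤ γ := by rcases hγ with h | h <;> omega
  have hγ1 : γ ≤ 1 := by rcases hγ with h | h <;> omega
  have h0 := coarse hP.N0 hP.Y0 hp hq hr hα hα' hβ hβ' hγ0 hγ1 h
  obtain ⟨j, -, hj⟩ := on_line hg h0
  obtain ⟨t, t0, t1, -, e2⟩ := mem_oseg h
  simp only [emb, sp] at e2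
  push_cast at e2
  have hNpos : (0 : ℝ) < N := by
    have := hP.N0
    have := hP.Y0
    have : 0 < N := by omega
    exact_mod_cast this
  have hjR : (r.2 : ℝ) - p.2 = j * (q.2 - p.2) := by exact_mod_cast hj
  have hbR : (q.2 : ℝ) - p.2 ≠ 0 := by
    intro h
    apply hb
    have : (q.2 : ℝ) = p.2 := by linarith
    exact_mod_cast this
  have h1 : (N : ℝ) * ((j - t) * ((q.2 : ℝ) - p.2)) = 0 := by
    have : (r.2 : ℝ) = p.2 + j * (q.2 - p.2) := by linarith
    rw [this] at e2
    linear_combination e2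
  have h2 : (j : ℝ) = t := by
    rcases mul_eq_zero.1 h1 with h | h
    · linarith
    · rcases mul_eq_zero.1 h with h | h
      · linarith
      · exact absurd h hbR
  have h3 : (0 : ℝ) < j := by linarith
  have h4 : (j : ℝ) < 1 := by linarith
  have h5 : 0 < j := by exact_mod_cast h3
  have h6 : j < 1 := by exact_mod_cast h4
  omega

theorem mem_SS_of {X Y N : ℤ} {W : Finset Pt} {p : Pt} (hp : p ∈ box X Y) {δ : ℤ}
    (h : δ = 0 ∨ (δ = 1 ∧ p ∈ W)) : sp N p δ ∈ SS X Y N W := by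
  rw [mem_SS]
  rcases h with rfl | ⟨rfl, h⟩
  · exact Or.inl ⟨p, hp, rfl⟩
  · exact Or.inr ⟨p, h, rfl⟩

theorem dl_cases (W : Finset Pt) (f : Pt → Bool → Pt) (p q : Pt) :
    dl W f p q = 0 ∨ (dl W f p q = 1 ∧ p ∈ W) := by
  unfold dl
  split_ifs with h
  · exact Or.inr ⟨rfl, h.1⟩
  · exact Or.inl rfl

theorem slant_seg {X Y N : ℤ} {W : Finset Pt} (hP : Par X Y N W) {p q : Pt} (hp : p ∈ box X Y)
    (hq : q ∈ box X Y) (hg : Int.gcd (q.1 - p.1) (q.2 - p.2) = 1) (hb : q.2 ≠ p.2)
    {α β : ℤ} (hα : α = 0 ∨ (α = 1 ∧ p ∈ W)) (hβ : β = 0 ∨ (β = 1 ∧ q ∈ W)) :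
    IsSeg (SS X Y N W) (sp N p α) (sp N q β) := by
  have a0 : 0 ≤ α := by rcases hα with h | h <;> omega
  have a1 : α ≤ 1 := by rcases hα with h | h <;> omega
  have b0 : 0 ≤ β := by rcases hβ with h | h <;> omega
  have b1 : β ≤ 1 := by rcases hβ with h | h <;> omega
  refine ⟨mem_SS_of hp hα, mem_SS_of hq hβ, ?_, fun R hR => slant hP hp hq hg hb a0 a1 b0 b1 hR⟩
  intro h
  have hN2 : 2 ≤ N := by
    have := hP.N0
    have := hP.Y0
    omega
  exact hb (congrArg Prod.snd (sp_inj hN2 a0 a1 b0 b1 h).1).symm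

/-- horizontal segments to the right -/
theorem flat_seg {X Y N : ℤ} {W : Finset Pt} (hP : Par X Y N W) {p q : Pt} (hp : p ∈ box X Y)
    (hq : q ∈ box X Y) (h1 : q.1 = p.1 + 1) (h2 : q.2 = p.2) {α : ℤ}
    (hα : (α = 0 ∧ p ∉ W) ∨ (α = 1 ∧ p ∈ W)) :
    IsSeg (SS X Y N W) (sp N p α) (sp N q 0) := by
  have hNpos : 2 ≤ N := by
    have := hP.N0
    have := hP.Y0
    omega
  have a0 : 0 ≤ α := by rcases hα with h | h <;> omega
  have a1 : α ≤ 1 := by rcases hα with h | h <;> omega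
  refine ⟨mem_SS_of hp ?_, mem_SS_of hq (Or.inl rfl), ?_, ?_⟩
  · rcases hα with h | h
    · exact Or.inl h.1
    · exact Or.inr h
  · intro h
    have := congrArg Prod.fst (sp_inj hNpos a0 a1 le_rfl (by norm_num) h).1
    omega
  · intro R hR h
    obtain ⟨r, hr, γ, hγ, rfl⟩ := mem_SS' hP.W0 hR
    have hγ0 : 0 ≤ γ := by rcases hγ with h | h <;> omega
    have hγ1 : γ ≤ 1 := by rcases hγ with h | h <;> omega
    have h0 := coarse hP.N0 hP.Y0 hp hq hr a0 a1 le_rfl (by norm_num) hγ0 hγ1 h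
    have hr2 : r.2 = p.2 := by
      simp only [dt] at h0
      rw [h1, h2] at h0
      have : (p.1 + 1 - p.1) * (r.2 - p.2) - (p.2 - p.2) * (r.1 - p.1) = r.2 - p.2 := by ring
      omega
    obtain ⟨t, t0, t1, e1, -⟩ := mem_oseg h
    simp only [emb, sp] at e1
    rw [h1] at e1
    push_cast at e1
    have hNR : (2 : ℝ) ≤ N := by exact_mod_cast hNpos
    have aR : (α : ℝ) ≤ 1 := by exact_mod_cast a1
    have l1 : (N : ℝ) * p.1 + α < N * r.1 + γ := by
      have : (0 : ℝ) < t * (N - α) := mul_pos t0 (by linarith)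
      linarith
    have l2 : (N : ℝ) * r.1 + γ < N * (p.1 + 1) := by
      have : (0 : ℝ) < (1 - t) * (N - α) := mul_pos (by linarith) (by linarith)
      linarith
    have l1' : N * p.1 + α < N * r.1 + γ := by exact_mod_cast l1
    have l2' : N * r.1 + γ < N * (p.1 + 1) := by exact_mod_cast l2
    have hr1 : r.1 = p.1 := by
      rcases lt_trichotomy r.1 p.1 with h | h | h
      · have : N * r.1 ≤ N * (p.1 - 1) := mul_le_mul_of_nonneg_left (by omega) (by omega)
        have e : N * (p.1 - 1) = N * p.1 - N := by ring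
        omega
      · exact h
      · have : N * (p.1 + 1) ≤ N * r.1 := mul_le_mul_of_nonneg_left (by omega) (by omega)
        omega
    have hrp : r = p := Prod.ext hr1 hr2
    subst hrp
    rcases hα with ⟨rfl, hw⟩ | ⟨rfl, hw⟩
    · rcases hγ with rfl | ⟨-, hγ⟩
      · omega
      · exact hw hγ
    · omega

theorem p2a : TaskP2a := by
  intro X Y N W f Ts hP hL P Q hPQ
  have hNpos : 2 ≤ N := by
    have := hP.N0
    have := hP.Y0
    omega
  -- all cases give `IsSeg` for the given representatives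
  have fin : ∀ {A B : Pt}, s(P, Q) = s(A, B) → IsSeg (SS X Y N W) A B →
      IsSeg (SS X Y N W) P Q := by
    intro A B hAB h
    rcases Sym2.eq_iff.1 hAB with ⟨rfl, rfl⟩ | ⟨rfl, rfl⟩
    · exact h
    · exact isSeg_symm h
  rcases hPQ with ⟨p, q, hpq, he⟩ | ⟨w, hw, he⟩ | ⟨w, hw, s, he⟩
  · refine fin he ?_
    have hs := hL.tri.seg p q hpq
    have hg := prim_of_isSeg hs
    have hp := hs.1
    have hq := hs.2.1
    by_cases hb : q.2 = p.2
    · -- horizontal
      rw [hb, sub_self] at hg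
      have hq1 : (q.1 - p.1).natAbs = 1 := by
        rw [← Int.gcd_zero_right]
        exact hg
      have flat : ∀ {a b : Pt}, a ∈ box X Y → b ∈ box X Y → b.1 = a.1 + 1 → b.2 = a.2 →
          IsSeg (SS X Y N W) (sp N a (dl W f a b)) (sp N b (dl W f b a)) := by
        intro a b ha hb h1 h2
        have e2 : dl W f b a = 0 := by
          unfold dl
          rw [if_neg]
          rintro ⟨-, h | h | h⟩
          · have := h.1
            simp only [Prod.snd_sub] at this
            omega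
          · have := h.1
            simp only [Prod.snd_sub] at this
            omega
          · have := h.2
            simp only [Prod.fst_sub] at this
            omega
        rw [e2]
        refine flat_seg hP ha hb h1 h2 ?_
        by_cases haW : a ∈ W
        · right
          refine ⟨?_, haW⟩
          unfold dl
          rw [if_pos]
          refine ⟨haW, Or.inr (Or.inr ⟨?_, ?_⟩)⟩
          · simp only [Prod.snd_sub]
            omega
          · simp only [Prod.fst_sub]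
            omega
        · left
          refine ⟨?_, haW⟩
          unfold dl
          rw [if_neg]
          rintro ⟨h, -⟩
          exact haW h
      rcases Int.natAbs_eq (q.1 - p.1) with h | h
      · rw [hq1] at h
        exact flat hp hq (by push_cast at h; omega) hb
      · rw [hq1] at h
        exact isSeg_symm (flat hq hp (by push_cast at h; omega) hb.symm)
    · exact slant_seg hP hp hq hg hb (dl_cases W f p q) (dl_cases W f q p)
  · refine fin he ?_
    have hwb := lbox_box (hP.W0 hw)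
    refine ⟨mem_SS_of hwb (Or.inl rfl), mem_SS_of hwb (Or.inr ⟨rfl, hw⟩), ?_, ?_⟩
    · intro h
      have := (sp_inj hNpos le_rfl (by norm_num) (by norm_num) le_rfl h).2
      omega
    · intro R _ h
      obtain ⟨t, t0, t1, e1, -⟩ := mem_oseg h
      simp only [emb, sp] at e1
      push_cast at e1
      have l1 : (N : ℝ) * w.1 < R.1 := by
        rw [e1]
        linarith
      have l2 : (R.1 : ℝ) < N * w.1 + 1 := by
        rw [e1]
        linarith
      have l1' : N * w.1 < R.1 := by exact_mod_cast l1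
      have l2' : R.1 < N * w.1 + 1 := by exact_mod_cast l2
      omega
  · refine fin he ?_
    have hwb := lbox_box (hP.W0 hw)
    have hq := hL.sel.mem w hw s
    refine slant_seg hP hwb hq ?_ ?_ (Or.inr ⟨rfl, hw⟩) (Or.inl rfl)
    · have := hL.sel.prim w hw s
      simpa using this
    · have hf : (f w s).2 ≠ 0 := by
        cases s
        · have := hL.sel.down w hw
          omega
        · have := hL.sel.up w hw
          omega
      intro h
      simp only [Prod.snd_add] at h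
      omega

end Pool.Agent.H691.Geo.P2a
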