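import Pool.Agent.H691.Geo.Base

/-!
# Max-min area triangulations: statements of the geometric lemmas
-/

set_option autoImplicit false

namespace Pool.Agent.H691.Geo

open Pool.Agent.W982.TA

/-- the assumptions on the parameters -/
structure Par (X Y N : ℤ) (W : Finset Pt) : Prop where
  X0 : 0 < X
  Y0 : 0 < Y
  N0 : 4 * Y + 8 ≤ N
  W0 : W ⊆ lbox X Y

/-- a triangulation of `SS X Y N W` with doubled areas at least `2 N` -/
structure Good (X Y N : ℤ) (W : Finset Pt) (T : Set (Sym2 Pt)) : Prop where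
  tri : IsTriangulation (SS X Y N W) T
  area : ∀ a b c, IsTri (SS X Y N W) T a b c → 2 * N ≤ |dt a b c|

/-- P1a: an edge from `N p` to `N q + (1,0)` with further lattice points on the segment `p q` -/
def TaskP1a : Prop := ∀ (X Y N : ℤ) (W : Finset Pt) (T : Set (Sym2 Pt)), Par X Y N W →
  Good X Y N W T → ∀ (p q g : Pt) (k : ℤ), 2 ≤ k → q = (p.1 + k * g.1, p.2 + k * g.2) →
  Int.gcd g.1 g.2 = 1 → g.2 ≠ 0 → p ∈ box X Y → q ∈ W → s(sp N p 0, sp N q 1) ∈ T → 2 ≤ |g.2|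

/-- there is an edge of the triangulation close to the segment from `w` to `w + v` -/
def Near (X Y N : ℤ) (T : Set (Sym2 Pt)) (w v : Pt) : Prop :=
  ∃ i j α β : ℤ, i ≤ 0 ∧ 1 ≤ j ∧ (0 ≤ α ∧ α ≤ 1) ∧ (0 ≤ β ∧ β ≤ 1) ∧
    (w.1 + i * v.1, w.2 + i * v.2) ∈ box X Y ∧ (w.1 + j * v.1, w.2 + j * v.2) ∈ box X Y ∧
    s(sp N (w.1 + i * v.1, w.2 + i * v.2) α, sp N (w.1 + j * v.1, w.2 + j * v.2) β) ∈ T

/-- P1b: every special point has a primitive vector upwards and one downwards, with a close edge;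
`σ = 1` (upwards) or `σ = -1` (downwards) -/
def TaskP1b : Prop := ∀ (X Y N : ℤ) (W : Finset Pt) (T : Set (Sym2 Pt)), Par X Y N W →
  Good X Y N W T → ∀ w ∈ W, ∀ σ : ℤ, (σ = 1 ∨ σ = -1) → ∃ v : Pt, Int.gcd v.1 v.2 = 1 ∧
    2 ≤ σ * v.2 ∧ w + v ∈ box X Y ∧ Near X Y N T w v

/-- P1c: segments with close edges do not cross -/
def TaskP1c : Prop := ∀ (X Y N : ℤ) (W : Finset Pt) (T : Set (Sym2 Pt)), Par X Y N W →
  Good X Y N W T → ∀ w v w' v' : Pt, Near X Y N T w v → Near X Y N T w' v' →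
  ¬ PCross w (w + v) w' (w' + v')

/-- the vector `h` points to the right side of the path with upper vector `a` and lower vector
`b` -/
def ToRight (a b h : Pt) : Prop :=
  (0 < h.2 ∧ a.1 * h.2 - a.2 * h.1 < 0) ∨ (h.2 < 0 ∧ 0 < b.1 * h.2 - b.2 * h.1) ∨
    (h.2 = 0 ∧ 0 < h.1)

open Classical in
/-- the displacement of the endpoint `p` of the coarse segment `p q` -/
noncomputable def dl (W : Finset Pt) (f : Pt → Bool → Pt) (p q : Pt) : ℤ :=
  if p ∈ W ∧ ToRight (f p true) (f p false) (q - p) then 1 else 0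

/-- the lifted family of segments -/
def Fam (N : ℤ) (W : Finset Pt) (f : Pt → Bool → Pt) (Ts : Set (Sym2 Pt)) : Set (Sym2 Pt) :=
  {e | (∃ p q, s(p, q) ∈ Ts ∧ e = s(sp N p (dl W f p q), sp N q (dl W f q p))) ∨
    (∃ w ∈ W, e = s(sp N w 0, sp N w 1)) ∨
    (∃ w ∈ W, ∃ s, e = s(sp N w 1, sp N (w + f w s) 0))}

/-- the assumptions of the completeness part: `Ts` is a triangulation of all lattice points of
the box that contains the segments of the selection `f` -/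
structure Lft (X Y : ℤ) (W : Finset Pt) (f : Pt → Bool → Pt) (Ts : Set (Sym2 Pt)) : Prop where
  sel : Sel X Y W f
  out : ∀ w ∈ W, ∀ s, w + f w s ∉ W
  tri : IsTriangulation (box X Y) Ts
  sub : ∀ w ∈ W, ∀ s, s(w, w + f w s) ∈ Ts

/-- P2a: the lifted family consists of segments -/
def TaskP2a : Prop := ∀ (X Y N : ℤ) (W : Finset Pt) (f : Pt → Bool → Pt) (Ts : Set (Sym2 Pt)),
  Par X Y N W → Lft X Y W f Ts → ∀ P Q, s(P, Q) ∈ Fam N W f Ts → IsSeg (SS X Y N W) P Q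

/-- P2b: the lifted family has no crossings -/
def TaskP2b : Prop := ∀ (X Y N : ℤ) (W : Finset Pt) (f : Pt → Bool → Pt) (Ts : Set (Sym2 Pt)),
  Par X Y N W → Lft X Y W f Ts → ∀ P Q P' Q', s(P, Q) ∈ Fam N W f Ts →
  s(P', Q') ∈ Fam N W f Ts → ¬ PCross P Q P' Q'

/-- P2c: a triangulation that contains the lifted family has large areas -/
def TaskP2c : Prop := ∀ (X Y N : ℤ) (W : Finset Pt) (f : Pt → Bool → Pt) (Ts : Set (Sym2 Pt)),
  Par X Y N W → Lft X Y W f Ts → ∀ T, IsTriangulation (SS X Y N W) T → Fam N W f Ts ⊆ T →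
  ∀ a b c, IsTri (SS X Y N W) T a b c → 2 * N ≤ |dt a b c|

end Pool.Agent.H691.Geo
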